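import Pool.Agent.helper33.GR2.Spec

/-!
# Project g2: (MP_af9036_an, MP_70a088_an), module COR2
-/

set_option autoImplicit false

open Complex Metric Set Filter Topology MeasureTheory
open MPS (om)
open PPS (pre TT fd)
open XPS (Df er dens tau)
open Pool.Agent.helper16.Multibrot

noncomputable section

namespace GR

theorem COR2_om (n : ℕ) : ‖om n‖ = 1 := by
  unfold MPS.om
  rw [show (2 * (Real.pi : ℂ) * Complex.I / (n : ℂ)) = ((2 * Real.pi / n : ℝ) : ℂ) * Complex.I by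
    push_cast; ring]
  exact Complex.norm_exp_ofReal_mul_I _

/-- the area of an annulus -/
theorem COR2_area (r : ℝ) (hr : 0 < r) :
    ENNReal.ofReal (2 * r ^ 2) ≤ volume (ball (0 : ℂ) r \ closedBall (0 : ℂ) (r / 2)) := by
  have hsub : closedBall (0 : ℂ) (r / 2) ⊆ ball (0 : ℂ) r := closedBall_subset_ball (by linarith)
  rw [measure_sdiff hsub measurableSet_closedBall.nullMeasurableSet measure_closedBall_lt_top.ne]
  rw [Complex.volume_ball, Complex.volume_closedBall]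
  have h1 : (NNReal.pi : ENNReal) = ENNReal.ofReal Real.pi := by
    rw [← NNReal.coe_real_pi, ENNReal.ofReal_coe_nnreal]
  rw [h1, ← ENNReal.ofReal_pow hr.le, ← ENNReal.ofReal_pow (by linarith : (0 : ℝ) ≤ r / 2),
    ← ENNReal.ofReal_mul (by positivity), ← ENNReal.ofReal_mul (by positivity),
    ← ENNReal.ofReal_sub _ (by positivity)]
  apply ENNReal.ofReal_le_ofReal
  have := Real.pi_gt_three
  nlinarith [sq_nonneg r, pow_pos hr 2]

/-- `SS ≥ 1`. -/
theorem COR2_SS (n : ℕ) (c : ℂ) (p : ℕ) (hp : 1 ≤ p) (hA1 : A n c 1 = 1) : 1 ≤ SS n c p := by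
  unfold SS
  have h1 : (1 : ℕ) ∈ Finset.Icc 1 p := Finset.mem_Icc.2 ⟨le_rfl, hp⟩
  calc (1 : ℝ) = ‖A n c 1‖ / ‖A n c 1‖ := by rw [hA1]; norm_num
    _ ≤ ∑ j ∈ Finset.Icc 1 p, ‖A n c j‖ / ‖A n c 1‖ :=
        Finset.single_le_sum (f := fun j => ‖A n c j‖ / ‖A n c 1‖) (fun j _ => by positivity) h1
    _ ≤ ∑ i ∈ Finset.Icc 1 p, ∑ j ∈ Finset.Icc 1 p, ‖A n c j‖ / ‖A n c i‖ :=
        Finset.single_le_sum (f := fun i => ∑ j ∈ Finset.Icc 1 p, ‖A n c j‖ / ‖A n c i‖)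
          (fun i _ => Finset.sum_nonneg (fun j _ => by positivity)) h1

/-- the pointwise lower bound on the annulus -/
theorem COR2_point (hPH3 : PH3_stmt) (n : ℕ) (hn : 2 ≤ n) (κ : ℂ) (T : ℂ → ℂ) (ρ : ℝ)
    (hT : ∀ w : ℂ, ρ / 2 < ‖w‖ → ‖w‖ < ρ → ‖T w - κ * w ^ (-1 : ℤ)‖ ≤ 1 / 4 * ‖κ * w ^ (-1 : ℤ)‖)
    (hρ : 0 < ρ) (w : ℂ) (hw1 : ρ / 2 < ‖w‖) (hw2 : ‖w‖ < ρ) :
    (n : ℝ) / 2 * (‖κ‖ / ρ) ≤ ∑ k ∈ Finset.range n, ‖T (om n ^ k * w)‖ -
      ‖∑ k ∈ Finset.range n, om n ^ (2 * k) * T (om n ^ k * w)‖ := by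
  have hw0 : w ≠ 0 := by
    intro h0
    rw [h0, norm_zero] at hw1
    linarith
  have hnorm : ∀ k : ℕ, ‖om n ^ k * w‖ = ‖w‖ := by
    intro k
    rw [norm_mul, norm_pow, COR2_om, one_pow, one_mul]
  have hzn : ∀ k : ℕ, ‖κ * (om n ^ k * w) ^ (-1 : ℤ)‖ = ‖κ * w ^ (-1 : ℤ)‖ := by
    intro k
    rw [norm_mul, norm_mul, norm_zpow, norm_zpow, hnorm]
  have hdvd : ¬ ((n : ℤ) ∣ (-1 : ℤ) + 2) := by
    intro h
    have := Int.le_of_dvd (by norm_num) h
    omega
  have hph := hPH3 n hn κ w (fun k => T (om n ^ k * w)) (-1) hdvd hw0 (by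
    intro k _
    have := hT (om n ^ k * w) (by rw [hnorm]; exact hw1) (by rw [hnorm]; exact hw2)
    rw [hzn] at this
    exact this)
  refine le_trans ?_ hph
  apply mul_le_mul_of_nonneg_left _ (by positivity)
  rw [norm_mul, norm_zpow, zpow_neg_one, div_eq_mul_inv]
  apply mul_le_mul_of_nonneg_left _ (norm_nonneg _)
  exact inv_anti₀ (by linarith) hw2.le

theorem COR2 (hKO1 : V3.KO1_stmt) (hKO3 : V3.KO3_stmt) (hNAT : NAT_stmt) (hMSB : MSB_stmt)
    (hERI : ERI_stmt) (hENG : ENG_stmt) (hTOW : TOW_stmt) (hSYM : SYM_stmt) (hZRO : ZRO_stmt)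
    (hLC2 : LC2_stmt) (hPH3 : PH3_stmt) : COR2_stmt := by
  obtain ⟨C, hC1, hC⟩ := hKO1
  have hKQ : KQ C := ⟨hC1, hC⟩
  obtain ⟨D, hD1, hD⟩ := hKO3 (1 / 2) (by norm_num) (by norm_num)
  have hKD : KD D := by
    refine ⟨hD1, ?_⟩
    intro G a r hr hdiff hinj x hx
    refine ((hD G a r hr hdiff hinj).2 x ?_).2.2.2
    rw [show (1 - 1 / 2) * r = r / 2 by ring]
    exact hx
  have hC0 : 0 < C := by linarith
  obtain ⟨CE, hCE, heri⟩ := hERI
  set Q₁ : ℝ := 1 + Real.log (8 * C * (1 + D)) with hQ₁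
  have h8 : 1 ≤ 8 * C * (1 + D) := by nlinarith
  have hQ₁1 : 1 ≤ Q₁ := by
    have := Real.log_nonneg h8
    linarith
  set K₀ : ℝ := (128 * C + 2) + 524288 * C * Q₁ + 49152 * C * CE * Q₁ with hK₀
  have hK1 : 0 ≤ 524288 * C * Q₁ := by positivity
  have hK2 : 0 ≤ 49152 * C * CE * Q₁ := by positivity
  refine ⟨K₀, by linarith, ?_⟩
  intro n hn c p q κ hret hκ hS
  obtain ⟨-, -, -, -, -, -, hA1, -, -, -, hnat⟩ := hNAT n c hn
  obtain ⟨hR0, hR2, hX1, hRX, hA0, hxcp, hxc⟩ := hnat p q hret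
  have hlog : 0 ≤ Real.log (X n c p q) := Real.log_nonneg hX1.le
  have hp1 : 1 ≤ p := by have := hret.q1; have := hret.qp; omega
  have hSS1 : 1 ≤ SS n c p := COR2_SS n c p hp1 hA1
  have hlogS : 0 ≤ Real.log (SS n c p) := Real.log_nonneg hSS1
  have hfac : 1 ≤ κ * (1 + Real.log (X n c p q)) := by nlinarith
  have hfac0 : 0 ≤ κ * (1 + Real.log (X n c p q)) := by linarith
  obtain ⟨Q, hQ⟩ : ∃ Q : ℝ, Q = 1 + Real.log (2 * (4 * C * (1 + D) * SS n c p)) := ⟨_, rfl⟩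
  have hQQ : Q ≤ Q₁ * (1 + Real.log (SS n c p)) := by
    have e1 : Real.log (2 * (4 * C * (1 + D) * SS n c p)) =
        Real.log (8 * C * (1 + D)) + Real.log (SS n c p) := by
      rw [← Real.log_mul (by positivity) (by positivity)]
      congr 1
      ring
    have ha : 0 ≤ Real.log (8 * C * (1 + D)) := Real.log_nonneg h8
    have hab := mul_nonneg ha hlogS
    have e2 : Q = 1 + (Real.log (8 * C * (1 + D)) + Real.log (SS n c p)) := by rw [hQ, e1]
    have e3 : Q₁ * (1 + Real.log (SS n c p)) = 1 + (Real.log (8 * C * (1 + D)) +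
        Real.log (SS n c p)) + Real.log (8 * C * (1 + D)) * Real.log (SS n c p) := by
      rw [hQ₁]; ring
    rw [e2, e3]
    linarith
  have hQ1 : 1 ≤ Q := by
    have : 1 ≤ 2 * (4 * C * (1 + D) * SS n c p) := by
      have h1 : 8 * C * (1 + D) ≤ 8 * C * (1 + D) * SS n c p :=
        le_mul_of_one_le_right (by linarith) hSS1
      nlinarith
    have := Real.log_nonneg this
    linarith
  by_cases hsmall : X n c p q ≤ 128 * C + 2
  · calc X n c p q ≤ K₀ * 1 * 1 := by linarith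
      _ ≤ K₀ * (κ * (1 + Real.log (X n c p q))) * (1 + Real.log (SS n c p)) := by
          have hK0 : 0 ≤ K₀ := by linarith
          have h1 : K₀ * 1 ≤ K₀ * (κ * (1 + Real.log (X n c p q))) :=
            mul_le_mul_of_nonneg_left hfac hK0
          exact mul_le_mul h1 (by linarith) (by norm_num) (by positivity)
      _ = _ := by ring
  rw [not_le] at hsmall
  have hXpos : 0 < X n c p q := by linarith
  by_cases hsmall2 : X n c p q ≤ 524288 * C * Q
  · calc X n c p q ≤ 524288 * C * Q := hsmall2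
      _ ≤ 524288 * C * (Q₁ * (1 + Real.log (SS n c p))) :=
          mul_le_mul_of_nonneg_left hQQ (by positivity)
      _ = 524288 * C * Q₁ * 1 * (1 + Real.log (SS n c p)) := by ring
      _ ≤ K₀ * (κ * (1 + Real.log (X n c p q))) * (1 + Real.log (SS n c p)) := by
          apply mul_le_mul_of_nonneg_right _ (by linarith)
          exact mul_le_mul (by linarith) hfac (by norm_num) (by linarith)
      _ = _ := by ring
  rw [not_le] at hsmall2
  have hX16 : 16 * C ≤ X n c p q := by linarith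
  have hX128 : 128 * C ≤ X n c p q := by linarith
  have hX2 : 2 ≤ X n c p q := by linarith
  obtain ⟨G, hG⟩ := hTOW n c p q hret
  obtain ⟨m, hm, hNu⟩ := hZRO C n c p q G hKQ hret hG hX16
  set ρ : ℝ := R n c q / (8192 * C * Q) with hρ
  have hCQ : 0 < 8192 * C * Q := by positivity
  have hρ0 : 0 < ρ := by rw [hρ]; positivity
  have hZp : 0 < ‖Z n c p‖ := norm_pos_iff.2 (hret.ne0 p hp1 le_rfl)
  have hAp : 0 < ‖A n c p‖ := norm_pos_iff.2 (hA0 p hp1 (by omega))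
  have hZρ : ‖Z n c p‖ ≤ ρ / 64 := by
    rw [hρ, hRX, div_div, le_div_iff₀ (by positivity)]
    calc ‖Z n c p‖ * (8192 * C * Q * 64) = (524288 * C * Q) * ‖Z n c p‖ := by ring
      _ ≤ X n c p q * ‖Z n c p‖ := mul_le_mul_of_nonneg_right hsmall2.le hZp.le
  have hloc := hLC2 C D n c p q G m ρ hKQ hKD hret hG hX128 hm hNu (by rw [hρ, hQ]) hZρ
  -- the energy
  obtain ⟨hBm, hBi⟩ := hMSB n c p q
  set ε : ℝ := CE * κ * (‖Z n c p‖ / ‖A n c p‖) * (1 + Real.log (X n c p q)) with hε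
  have hκ0 : 0 < κ := by linarith
  have hε0 : 0 ≤ ε := by rw [hε]; positivity
  obtain ⟨-, hDm, hem, hEg⟩ := hENG n c (B n c p q) ε hn hret.hc hBm hBi hε0
    (heri n c p q κ hret hX2 hκ hS)
  have hsym := hSYM C n c p q G (3 * ε) hKQ hret hG hX16 hDm hem hEg m hm
  have hρR : ρ ≤ R n c q / (8 * C) := by
    rw [hρ]
    apply div_le_div_of_nonneg_left hR0.le (by positivity)
    nlinarith
  have hsub : ball (0 : ℂ) ρ \ closedBall (0 : ℂ) (ρ / 2) ⊆ ball 0 (R n c q / (8 * C)) := by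
    intro w hw
    exact ball_subset_ball hρR hw.1
  have hlow : ∀ w ∈ ball (0 : ℂ) ρ \ closedBall (0 : ℂ) (ρ / 2),
      ENNReal.ofReal ((n : ℝ) / 2 * (‖(A n c p)⁻¹‖ / ρ)) ≤ ENNReal.ofReal
        (∑ k ∈ Finset.range n, ‖tau (B n c p q) G m (om n ^ k * w)‖ -
          ‖∑ k ∈ Finset.range n, om n ^ (2 * k) * tau (B n c p q) G m (om n ^ k * w)‖) := by
    intro w hw
    apply ENNReal.ofReal_le_ofReal
    refine COR2_point hPH3 n hn (A n c p)⁻¹ (tau (B n c p q) G m) ρ hloc hρ0 w ?_ ?_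
    · have h1 := hw.2
      rw [mem_closedBall_zero_iff, not_le] at h1
      exact h1
    · exact mem_ball_zero_iff.1 hw.1
  have hmeas : MeasurableSet (ball (0 : ℂ) ρ \ closedBall (0 : ℂ) (ρ / 2)) :=
    measurableSet_ball.diff measurableSet_closedBall
  have hchain : ENNReal.ofReal ((n : ℝ) / 2 * (‖(A n c p)⁻¹‖ / ρ)) * ENNReal.ofReal (2 * ρ ^ 2) ≤
      2 * n * ENNReal.ofReal (3 * ε) := by
    calc ENNReal.ofReal ((n : ℝ) / 2 * (‖(A n c p)⁻¹‖ / ρ)) * ENNReal.ofReal (2 * ρ ^ 2)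
        ≤ ENNReal.ofReal ((n : ℝ) / 2 * (‖(A n c p)⁻¹‖ / ρ)) *
          volume (ball (0 : ℂ) ρ \ closedBall (0 : ℂ) (ρ / 2)) :=
          mul_le_mul_right (COR2_area ρ hρ0) _
      _ = ∫⁻ w in ball (0 : ℂ) ρ \ closedBall (0 : ℂ) (ρ / 2),
          ENNReal.ofReal ((n : ℝ) / 2 * (‖(A n c p)⁻¹‖ / ρ)) := by
          rw [setLIntegral_const]
      _ ≤ ∫⁻ w in ball (0 : ℂ) ρ \ closedBall (0 : ℂ) (ρ / 2), ENNReal.ofReal
        (∑ k ∈ Finset.range n, ‖tau (B n c p q) G m (om n ^ k * w)‖ -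
          ‖∑ k ∈ Finset.range n, om n ^ (2 * k) * tau (B n c p q) G m (om n ^ k * w)‖) :=
          setLIntegral_mono' hmeas hlow
      _ ≤ _ := lintegral_mono_set hsub
      _ ≤ _ := hsym
  rw [← ENNReal.ofReal_mul (by positivity), show (2 : ENNReal) * (n : ENNReal) =
    ENNReal.ofReal (2 * (n : ℝ)) by
      rw [ENNReal.ofReal_mul (by norm_num), ENNReal.ofReal_natCast]; norm_num,
    ← ENNReal.ofReal_mul (by positivity), ENNReal.ofReal_le_ofReal_iff (by positivity)] at hchain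
  have hn0 : (0 : ℝ) < n := by exact_mod_cast (by omega : 0 < n)
  have h1 : ρ ≤ 6 * (CE * κ * (1 + Real.log (X n c p q))) * ‖Z n c p‖ := by
    have e1 : (n : ℝ) / 2 * (‖(A n c p)⁻¹‖ / ρ) * (2 * ρ ^ 2) = n * (ρ / ‖A n c p‖) := by
      rw [norm_inv]
      field_simp
    have e2 : 2 * (n : ℝ) * (3 * ε) = n * (6 * ε) := by ring
    rw [e1, e2] at hchain
    have h2 := le_of_mul_le_mul_left hchain hn0
    rw [div_le_iff₀ hAp, hε] at h2
    have e3 : 6 * (CE * κ * (‖Z n c p‖ / ‖A n c p‖) * (1 + Real.log (X n c p q))) * ‖A n c p‖ =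
        6 * (CE * κ * (1 + Real.log (X n c p q))) * ‖Z n c p‖ := by
      field_simp
    rw [e3] at h2
    exact h2
  have h2 : X n c p q ≤ 49152 * C * CE * Q * (κ * (1 + Real.log (X n c p q))) := by
    rw [hρ, hRX, div_le_iff₀ hCQ] at h1
    have e1 : 6 * (CE * κ * (1 + Real.log (X n c p q))) * ‖Z n c p‖ * (8192 * C * Q) =
        (49152 * C * CE * Q * (κ * (1 + Real.log (X n c p q)))) * ‖Z n c p‖ := by ring
    rw [e1] at h1
    exact le_of_mul_le_mul_right h1 hZp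
  calc X n c p q ≤ 49152 * C * CE * Q * (κ * (1 + Real.log (X n c p q))) := h2
    _ ≤ 49152 * C * CE * (Q₁ * (1 + Real.log (SS n c p))) *
        (κ * (1 + Real.log (X n c p q))) := by
        apply mul_le_mul_of_nonneg_right _ hfac0
        exact mul_le_mul_of_nonneg_left hQQ (by positivity)
    _ = 49152 * C * CE * Q₁ * (κ * (1 + Real.log (X n c p q))) * (1 + Real.log (SS n c p)) := by
        ring
    _ ≤ K₀ * (κ * (1 + Real.log (X n c p q))) * (1 + Real.log (SS n c p)) := by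
        apply mul_le_mul_of_nonneg_right _ (by linarith)
        apply mul_le_mul_of_nonneg_right _ hfac0
        linarith
    _ = _ := by ring

end GR
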